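import Pool.Agent.H927.MG.SGoals
import Pool.Graph.R_pool_sql_team_seeded_f72693b1.W523.Genus

/-! Project MG (helper927), GE: the genus from the Cech cohomology (by helper286) -/

set_option autoImplicit false

open AlgebraicGeometry CategoryTheory Limits Polynomial
open scoped LaurentPolynomial
open LaurentPolynomial (T invert T_add T_zero involutive_invert invert_T invert_C)

namespace Pool.Agent.H286.MG927

open Pool.Agent.W523 Pool.Agent.H927.MG

theorem genus : S_genus := by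
  intro K _ G hC
  obtain ⟨-, B, hB⟩ := hC
  have hB' : ∀ w, ∃ a : Fin 4 → K, (∃ w₁ w₂, w = (∑ i, inc G.d1 (sc _ (a i)) * B i) +
      inc G.d1 w₁ + inc2 G w₂) ∧ ∀ a' : Fin 4 → K, (∃ w₁ w₂, w =
      (∑ i, inc G.d1 (sc _ (a' i)) * B i) + inc G.d1 w₁ + inc2 G w₂) → a' = a := fun w => hB w
  choose l hl hu using hB'
  have hadd : ∀ w w', l (w + w') = l w + l w' := by
    intro w w'
    obtain ⟨p, q, h⟩ := hl w
    obtain ⟨p', q', h'⟩ := hl w'
    refine (hu _ _ ⟨p + p', q + q', ?_⟩).symm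
    nth_rw 1 [h, h']
    simp only [Pi.add_apply, map_add, add_mul, Finset.sum_add_distrib]
    ring
  have h0 : l 0 = 0 := by
    refine (hu _ _ ⟨0, 0, ?_⟩).symm
    simp
  have hsc : ∀ k : K, inc2 G (sc G.d2 k) = inc G.d1 (sc G.d1 k) := fun k => by
    rw [inc2_sc_apply, inc_sc_apply]
  refine hasGenus_of_charts (crvCharts G) (fun k => (hsc k).symm)
    { toFun := l, map_zero' := h0, map_add' := hadd } ?_ ?_ ?_
  · intro k z
    change l (inc G.d1 (sc G.d1 k) * z) = k • l z
    obtain ⟨p, q, h⟩ := hl z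
    refine (hu _ _ ⟨sc G.d1 k * p, sc G.d2 k * q, ?_⟩).symm
    nth_rw 1 [h]
    simp only [Pi.smul_apply, smul_eq_mul, map_mul, hsc, mul_add, Finset.mul_sum, mul_assoc]
  · intro a
    refine ⟨∑ i, inc G.d1 (sc _ (a i)) * B i, ?_⟩
    change l _ = a
    refine (hu _ _ ⟨0, 0, ?_⟩).symm
    rw [map_zero, map_zero, add_zero, add_zero]
  · intro z
    change l z = 0 ↔ ∃ p q, z = inc G.d1 p + inc2 G q
    constructor
    · intro h
      obtain ⟨p, q, h'⟩ := hl z
      refine ⟨p, q, ?_⟩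
      rw [h] at h'
      simpa using h'
    · rintro ⟨p, q, rfl⟩
      refine (hu _ _ ⟨p, q, ?_⟩).symm
      simp

end Pool.Agent.H286.MG927
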